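import Mathlib
import Pool.Agent.H45.WordMetric

set_option autoImplicit false

open Module

universe u

namespace Pool.Agent.Results.MP_8476ae_an.DimensionNoDecay

/-- `M` embeds with bi-Lipschitz distortion `D` into `ℓ_p(X)`. -/
def EmbedsLp (M : Type*) [MetricSpace M] (p D : ℝ) (X : Type*) [NormedAddCommGroup X]
    [NormedSpace ℝ X] : Prop :=
  ∃ f : M → lp (fun _ : ℕ => X) (ENNReal.ofReal p),
    ∀ x y : M, dist x y ≤ ‖f x - f y‖ ∧ ‖f x - f y‖ ≤ D * dist x y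

/-- The statement of the problem. -/
def Q1 : Prop :=
  ∃ C : ℝ, 1 ≤ C ∧ ∀ p D : ℝ, 1 ≤ p → 1 ≤ D → ∃ n₀ : ℕ, ∀ n : ℕ, n₀ ≤ n →
    ∀ (M : Type) [MetricSpace M] [Fintype M], Fintype.card M = n →
      ∃ (k : ℕ) (X : Type) (_ : NormedAddCommGroup X) (_ : NormedSpace ℝ X),
        (k : ℝ) ≤ (n : ℝ) ^ (C / (p * D)) ∧ FiniteDimensional ℝ X ∧ finrank ℝ X = k ∧
          EmbedsLp M p D X

open Pool.Agent.H45.Aver in
/-- The lower bound for the word metric on `F_q^N`. -/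
lemma vert_bound {q N R : ℕ} [Fact q.Prime] {p D : ℝ} (hp : 2 < p) (hD : 1 ≤ D) (hN : N = 2 * R)
    (hR : 1 ≤ R) (hRD : 8 * D ≤ R) {X : Type*} [NormedAddCommGroup X] [NormedSpace ℝ X]
    [FiniteDimensional ℝ X]
    (hk : (8 : ℝ) ^ (p - 1) * ((finrank ℝ X : ℝ) * (((N : ℝ) - 1) / q)) ^ 2 ≤ 1 / 2) :
    ¬ @EmbedsLp (Vert q N R) (vertMetric q N R hR) p D X _ _ := by
  rintro ⟨f, hf⟩
  exact no_embed q N R (X := X) hp hD hN hR hRD (fun g => T_bound_X q N (by omega) g) hk f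
    fun v w => hf v w

/-- Choice of the prime. -/
lemma exists_prime {N : ℕ} (hN : 1 ≤ N) {n : ℕ} (hn : (2 : ℕ) ^ N ≤ n) :
    ∃ q : ℕ, q.Prime ∧ q ^ N ≤ n ∧ (n : ℝ) < (2 * (q : ℝ)) ^ N := by
  classical
  -- the integer part of the N-th root
  obtain ⟨m, hm1, hm2⟩ : ∃ m : ℕ, m ^ N ≤ n ∧ n < (m + 1) ^ N := by
    set m := Nat.findGreatest (fun m => m ^ N ≤ n) n with hm
    refine ⟨m, Nat.findGreatest_spec (P := fun m => m ^ N ≤ n) (Nat.zero_le n) ?_, ?_⟩
    · rw [zero_pow (by omega)]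
      exact Nat.zero_le n
    · by_contra hcon
      rw [not_lt] at hcon
      have h1 : m + 1 ≤ n := (Nat.le_self_pow (by omega) _).trans hcon
      have h2 := Nat.le_findGreatest (P := fun m => m ^ N ≤ n) h1 hcon
      omega
  have hm3 : 2 ≤ m := by
    by_contra hcon
    have h1 : m + 1 ≤ 2 := by omega
    have h2 : (m + 1) ^ N ≤ 2 ^ N := Nat.pow_le_pow_left h1 N
    omega
  obtain ⟨q, hq, hq1, hq2⟩ := Nat.exists_prime_lt_and_le_two_mul (m / 2) (by omega)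
  refine ⟨q, hq, (Nat.pow_le_pow_left (by omega) N).trans hm1, ?_⟩
  have h3 : m + 1 ≤ 2 * q := by omega
  have h4 : (m + 1) ^ N ≤ (2 * q) ^ N := Nat.pow_le_pow_left h3 N
  have h5 : n < (2 * q) ^ N := by omega
  exact_mod_cast h5

/-- For fixed `p > 2` and `D`, the dimension must be at least a power of `n` that does not
depend on `p`. -/
lemma strong (p D : ℝ) (hp : 2 < p) (hD : 1 ≤ D) : ∃ n₀ : ℕ, ∀ n : ℕ, n₀ ≤ n →
    ∃ (M : Type) (_ : MetricSpace M) (_ : Fintype M), Fintype.card M = n ∧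
      ∀ (X : Type u) [NormedAddCommGroup X] [NormedSpace ℝ X] [FiniteDimensional ℝ X],
        EmbedsLp M p D X → (n : ℝ) ^ (1 / (64 * D)) < finrank ℝ X := by
  obtain ⟨R, hRdef⟩ : ∃ R : ℕ, R = 8 * ⌈D⌉₊ := ⟨_, rfl⟩
  obtain ⟨N, hNdef⟩ : ∃ N : ℕ, N = 2 * R := ⟨_, rfl⟩
  have hceil1 : D ≤ ⌈D⌉₊ := Nat.le_ceil D
  have hceil2 : (⌈D⌉₊ : ℝ) < D + 1 := Nat.ceil_lt_add_one (by linarith)
  have hR1 : 1 ≤ R := by
    have : 1 ≤ ⌈D⌉₊ := Nat.one_le_ceil_iff.2 (by linarith)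
    omega
  have hRD : 8 * D ≤ R := by
    rw [hRdef]
    push_cast
    linarith
  have hN1 : 1 ≤ N := by omega
  have hN1' : (1 : ℝ) ≤ N := by exact_mod_cast hN1
  have hND : (N : ℝ) ≤ 32 * D := by
    rw [hNdef, hRdef]
    push_cast
    linarith
  refine ⟨max (2 ^ N) ⌈((8 : ℝ) ^ p * N ^ 2) ^ N⌉₊, fun n hn => ?_⟩
  have hn1 : 2 ^ N ≤ n := (le_max_left _ _).trans hn
  have hn2 : ((8 : ℝ) ^ p * N ^ 2) ^ N ≤ n :=
    (Nat.le_ceil _).trans (by exact_mod_cast (le_max_right _ _).trans hn)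
  obtain ⟨q, hq, hqn, hnq⟩ := exists_prime hN1 hn1
  have hfact : Fact q.Prime := ⟨hq⟩
  have hq0 : (0 : ℝ) < q := by exact_mod_cast hq.pos
  have hn0 : (0 : ℝ) < n := by
    have : 0 < n := lt_of_lt_of_le (by positivity) hn1
    exact_mod_cast this
  -- q is large
  have hqlarge : (8 : ℝ) ^ p * N ^ 2 < 2 * q := by
    have h1 : ((8 : ℝ) ^ p * N ^ 2) ^ N < (2 * (q : ℝ)) ^ N := lt_of_le_of_lt hn2 hnq
    exact lt_of_pow_lt_pow_left₀ N (by positivity) h1
  let mV : MetricSpace (Pool.Agent.H45.Aver.Vert q N R) :=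
    Pool.Agent.H45.Aver.vertMetric q N R hR1
  let mF : MetricSpace (Fin (n - q ^ N)) :=
    MetricSpace.induced Fin.val Fin.val_injective inferInstance
  let mS : MetricSpace (Pool.Agent.H45.Aver.Vert q N R ⊕ Fin (n - q ^ N)) :=
    Metric.metricSpaceSum
  refine ⟨Pool.Agent.H45.Aver.Vert q N R ⊕ Fin (n - q ^ N), mS, inferInstance, ?_, ?_⟩
  · rw [Fintype.card_sum, Fintype.card_fin]
    have h1 : Fintype.card (Pool.Agent.H45.Aver.Vert q N R) = q ^ N := by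
      have : Fintype.card (Pool.Agent.H45.Aver.Vert q N R) = Fintype.card (Fin N → ZMod q) := rfl
      rw [this, Fintype.card_fun, ZMod.card, Fintype.card_fin]
    rw [h1]
    omega
  · intro X _ _ _ hemb
    by_contra hcon
    rw [not_lt] at hcon
    refine vert_bound (q := q) (N := N) (R := R) (X := X) hp hD hNdef hR1 hRD ?_ ?_
    · -- the dimension is small
      have h1 : (finrank ℝ X : ℝ) ≤ (2 * (q : ℝ)) ^ (1 / 2 : ℝ) := by
        refine hcon.trans ?_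
        have h2 : (n : ℝ) ^ (1 / (64 * D)) ≤ (n : ℝ) ^ (1 / (2 * (N : ℝ))) := by
          refine Real.rpow_le_rpow_of_exponent_le ?_ ?_
          · have : 1 ≤ n := by
              have := Nat.one_le_two_pow (n := N)
              omega
            exact_mod_cast this
          · apply one_div_le_one_div_of_le
            · linarith
            · linarith
        have h3 : (n : ℝ) ^ (1 / (2 * (N : ℝ))) ≤ ((2 * (q : ℝ)) ^ N) ^ (1 / (2 * (N : ℝ))) :=
          Real.rpow_le_rpow hn0.le hnq.le (by positivity)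
        have h4 : ((2 * (q : ℝ)) ^ N) ^ (1 / (2 * (N : ℝ))) = (2 * (q : ℝ)) ^ (1 / 2 : ℝ) := by
          rw [← Real.rpow_natCast, ← Real.rpow_mul (by positivity)]
          congr 1
          have : (N : ℝ) ≠ 0 := by positivity
          field_simp
        rw [h4] at h3
        exact h2.trans h3
      have h2 : (finrank ℝ X : ℝ) ^ 2 ≤ 2 * q := by
        have h0 : (0 : ℝ) ≤ finrank ℝ X := Nat.cast_nonneg _
        have h9 : ((2 * (q : ℝ)) ^ (1 / 2 : ℝ)) ^ 2 = 2 * (q : ℝ) := by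
          rw [← Real.rpow_natCast, ← Real.rpow_mul (by positivity)]
          norm_num
        rw [← h9]
        exact pow_le_pow_left₀ h0 h1 2
      have h3 : ((N : ℝ) - 1) ^ 2 ≤ (N : ℝ) ^ 2 := by nlinarith
      have h8 : (8 : ℝ) ^ p = 8 * 8 ^ (p - 1) := by
        rw [← Real.rpow_one_add' (by norm_num) (by linarith)]
        congr 1
        ring
      have h8' : (0 : ℝ) < 8 ^ (p - 1) := by positivity
      have h4 : ((finrank ℝ X : ℝ) * (((N : ℝ) - 1) / q)) ^ 2 ≤ 2 * (N : ℝ) ^ 2 / q := by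
        have h5 : ((finrank ℝ X : ℝ) * (((N : ℝ) - 1) / q)) ^ 2 =
            (finrank ℝ X : ℝ) ^ 2 * ((N : ℝ) - 1) ^ 2 / (q : ℝ) ^ 2 := by
          field_simp
        rw [h5, div_le_div_iff₀ (by positivity) hq0]
        have h6 : (finrank ℝ X : ℝ) ^ 2 * ((N : ℝ) - 1) ^ 2 ≤ 2 * q * (N : ℝ) ^ 2 := by
          gcongr
        nlinarith
      calc (8 : ℝ) ^ (p - 1) * ((finrank ℝ X : ℝ) * (((N : ℝ) - 1) / q)) ^ 2
          ≤ (8 : ℝ) ^ (p - 1) * (2 * (N : ℝ) ^ 2 / q) := by gcongr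
        _ ≤ 1 / 2 := by
            rw [← mul_div_assoc, div_le_div_iff₀ hq0 (by norm_num)]
            rw [h8] at hqlarge
            nlinarith
    · obtain ⟨f, hf⟩ := hemb
      refine ⟨fun v => f (Sum.inl v), fun v w => ?_⟩
      have h1 : dist (Sum.inl v : Pool.Agent.H45.Aver.Vert q N R ⊕ Fin (n - q ^ N)) (Sum.inl w) =
          dist v w := Metric.isometry_inl.dist_eq v w
      have h2 := hf (Sum.inl v) (Sum.inl w)
      rw [h1] at h2
      exact h2

/-- For every `p > 2` and `D ≥ 1` and all large `n` some `n`-point metric space embeds with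
distortion `D` into `ℓ_p(X)` only if `dim X > n^{1/(64 D)}`; and the answer to the question is
negative. -/
theorem result :
    (∀ p D : ℝ, 2 < p → 1 ≤ D → ∃ n₀ : ℕ, ∀ n : ℕ, n₀ ≤ n →
      ∃ (M : Type) (_ : MetricSpace M) (_ : Fintype M), Fintype.card M = n ∧
        ∀ (X : Type u) [NormedAddCommGroup X] [NormedSpace ℝ X] [FiniteDimensional ℝ X],
          EmbedsLp M p D X → (n : ℝ) ^ (1 / (64 * D)) < finrank ℝ X) ∧ ¬ Q1 := by
  refine ⟨fun p D hp hD => strong p D hp hD, ?_⟩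
  rintro ⟨C, hC, h⟩
  obtain ⟨n₁, hn₁⟩ := h (64 * C) 1 (by linarith) le_rfl
  obtain ⟨n₀, hn₀⟩ := strong.{0} (64 * C) 1 (by linarith) le_rfl
  obtain ⟨M, mM, fM, hcard, hM⟩ := hn₀ (max (max n₀ n₁) 1) ((le_max_left _ _).trans (le_max_left _ _))
  obtain ⟨k, X, nX, sX, hk, hfin, hfr, hemb⟩ :=
    hn₁ (max (max n₀ n₁) 1) ((le_max_right _ _).trans (le_max_left _ _)) M hcard
  have h1 := hM X hemb
  rw [hfr] at h1
  have h2 : C / (64 * C * 1) = 1 / (64 * 1) := by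
    have : C ≠ 0 := by linarith
    field_simp
  rw [h2] at hk
  linarith

end Pool.Agent.Results.MP_8476ae_an.DimensionNoDecay
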